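import Pool.Agent.SSF.Stmts

/-!
# SSF row SLM: existence of the slots
-/

set_option autoImplicit false

open Set Topology
open scoped BigOperators

namespace Pool.Agent.SSF.H26

open Pool.Agent.LSG Pool.Agent.LPR Pool.Agent.SSF

section

variable {M : Type} [MetricSpace M]

/-- no isolated points -/
theorem nhds_inf [Nontrivial M] (hM : Sim M) (x : M) (U : Set M) (hU : IsOpen U) (hx : x ∈ U) :
    U.Infinite := by
  intro hfin
  have hopen : IsOpen ({x} : Set M) := by
    have h1 : ({x} : Set M) = U \ (U \ {x}) := by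
      ext y
      constructor
      · intro hy
        have hy' : y = x := hy
        subst hy'
        exact ⟨hx, fun h => h.2 rfl⟩
      · rintro ⟨hy1, hy2⟩
        by_contra hne
        exact hy2 ⟨hy1, hne⟩
    rw [h1]
    exact hU.sdiff (hfin.subset sdiff_subset).isClosed
  obtain ⟨η, hc, hi, hmem⟩ := hM {x} hopen ⟨x, rfl⟩
  obtain ⟨a, b, hab⟩ := exists_pair_ne M
  apply hab
  apply hi
  have ha : η a = x := hmem a
  have hb : η b = x := hmem b
  rw [ha, hb]

omit [MetricSpace M] in
/-- injective choice -/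
theorem inj_choice {A : ℕ → Set M} (hA : ∀ n, (A n).Infinite) :
    ∃ f : ℕ → M, (∀ n, f n ∈ A n) ∧ Function.Injective f := by
  classical
  have h1 : ∀ (n : ℕ) (s : Finset M), ∃ x, x ∈ A n ∧ x ∉ s := by
    intro n s
    obtain ⟨x, hx, hxs⟩ := (hA n).exists_notMem_finset s
    exact ⟨x, hx, hxs⟩
  choose g hg1 hg2 using h1
  let S : ℕ → Finset M := fun n => Nat.rec ∅ (fun n s => insert (g n s) s) n
  have hS : ∀ n, S (n + 1) = insert (g n (S n)) (S n) := fun n => rfl
  have hmono : Monotone S := by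
    apply monotone_nat_of_le_succ
    intro n
    rw [hS]
    exact Finset.subset_insert _ _
  refine ⟨fun n => g n (S n), fun n => hg1 n _, ?_⟩
  have hlt : ∀ m n, m < n → g m (S m) ≠ g n (S n) := by
    intro m n hmn heq
    have h2 : g m (S m) ∈ S n := by
      apply hmono (Nat.succ_le_of_lt hmn)
      rw [Nat.succ_eq_add_one, hS]
      exact Finset.mem_insert_self _ _
    rw [heq] at h2
    exact hg2 n _ h2
  intro m n hmn
  rcases lt_trichotomy m n with h | h | h
  · exact absurd hmn (hlt m n h)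
  · exact h
  · exact absurd hmn.symm (hlt n m h)

/-- a radius for a finite set of points -/
theorem radius (T : Finset M) (p : M) : ∃ r : ℝ, 0 < r ∧ ∀ q ∈ T, q ≠ p → 3 * r ≤ dist p q := by
  classical
  induction T using Finset.induction_on with
  | empty => exact ⟨1, one_pos, by simp⟩
  | insert a T ha ih =>
    obtain ⟨r, hr, h⟩ := ih
    by_cases hap : a = p
    · refine ⟨r, hr, ?_⟩
      intro q hq hqp
      rcases Finset.mem_insert.1 hq with h1 | h1
      · exact absurd (h1.trans hap) hqp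
      · exact h q h1 hqp
    · have hd : 0 < dist p a := dist_pos.2 (Ne.symm hap)
      refine ⟨min r (dist p a / 3), lt_min hr (by positivity), ?_⟩
      intro q hq hqp
      rcases Finset.mem_insert.1 hq with h1 | h1
      · subst h1
        have := min_le_right r (dist p q / 3)
        linarith
      · have := min_le_left r (dist p a / 3)
        have := h q h1 hqp
        linarith

/-- the copies -/
theorem copies [Nontrivial M] (hM : Sim M) (p : M) (r : ℝ) (hr : 0 < r) :
    ∃ η : ℕ → M → M, (∀ n, Continuous (η n)) ∧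
      (∀ n n' u u', η n u = η n' u' → n = n' ∧ u = u') ∧ (∀ n u, η n u ≠ p) ∧
      (∀ n u, dist (η n u) p < r / 2) ∧ ∀ n u, dist (η n u) p ≤ r / (n + 1) := by
  classical
  have step : ∀ (n : ℕ) (δ : ℝ), 0 < δ → ∃ (ζ : M → M) (δ' : ℝ), 0 < δ' ∧ Continuous ζ ∧
      Function.Injective ζ ∧ ∀ u, δ' < dist (ζ u) p ∧ dist (ζ u) p < δ ∧
        dist (ζ u) p < r / (n + 1) := by
    intro n δ hδ
    have hn : 0 < r / ((n : ℝ) + 1) := by positivity
    have hinf := nhds_inf hM p (Metric.ball p (min δ (r / (n + 1)))) Metric.isOpen_ball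
      (Metric.mem_ball_self (lt_min hδ hn))
    obtain ⟨q, hq, hqp⟩ := hinf.exists_notMem_finset {p}
    have hqp' : q ≠ p := by
      intro h
      exact hqp (by simp [h])
    have hd : 0 < dist q p := dist_pos.2 hqp'
    have hq2 : dist q p < min δ (r / (n + 1)) := hq
    have hopen : IsOpen {t : M | dist q p / 2 < dist t p ∧ dist t p < min δ (r / (n + 1))} := by
      apply IsOpen.inter
      · exact isOpen_lt continuous_const (continuous_id.dist continuous_const)
      · exact isOpen_lt (continuous_id.dist continuous_const) continuous_const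
    obtain ⟨ζ, hc, hi, hmem⟩ := hM _ hopen ⟨q, by
      refine ⟨?_, hq2⟩
      linarith⟩
    refine ⟨ζ, dist q p / 2, by positivity, hc, hi, ?_⟩
    intro u
    obtain ⟨h1, h2⟩ := hmem u
    exact ⟨h1, lt_of_lt_of_le h2 (min_le_left _ _), lt_of_lt_of_le h2 (min_le_right _ _)⟩
  choose Z D hD hZc hZi hZ using step
  let d : ℕ → {δ : ℝ // 0 < δ} := fun n =>
    Nat.rec ⟨r / 2, by positivity⟩ (fun n x => ⟨D n x.1 x.2, hD n x.1 x.2⟩) n
  have hd0 : (d 0).1 = r / 2 := rfl
  have hds : ∀ n, (d (n + 1)).1 = D n (d n).1 (d n).2 := fun n => rfl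
  have hlow : ∀ n u, (d (n + 1)).1 < dist (Z n (d n).1 (d n).2 u) p := by
    intro n u
    rw [hds]
    exact (hZ n (d n).1 (d n).2 u).1
  have hup : ∀ n u, dist (Z n (d n).1 (d n).2 u) p < (d n).1 := fun n u =>
    (hZ n (d n).1 (d n).2 u).2.1
  have hanti : Antitone fun n => (d n).1 := by
    apply antitone_nat_of_succ_le
    intro n
    obtain ⟨a, b, hab⟩ := exists_pair_ne M
    exact ((hlow n a).trans (hup n a)).le
  have hne : ∀ n n' u u', n < n' → Z n (d n).1 (d n).2 u ≠ Z n' (d n').1 (d n').2 u' := by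
    intro n n' u u' hnn h
    have h1 := hlow n u
    have h2 := hup n' u'
    have h3 : (d n').1 ≤ (d (n + 1)).1 := hanti (Nat.succ_le_of_lt hnn)
    rw [h] at h1
    linarith
  refine ⟨fun n => Z n (d n).1 (d n).2, fun n => hZc n _ _, ?_, ?_, ?_, ?_⟩
  · intro n n' u u' h
    rcases lt_trichotomy n n' with h1 | h1 | h1
    · exact absurd h (hne n n' u u' h1)
    · subst h1
      exact ⟨rfl, hZi n _ _ h⟩
    · exact absurd h.symm (hne n' n u' u h1)
  · intro n u h
    have h1 := hlow n u
    have h2 : Z n (d n).1 (d n).2 u = p := h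
    rw [h2, dist_self] at h1
    exact absurd h1 (not_lt.2 (d (n + 1)).2.le)
  · intro n u
    have h1 := hup n u
    have h2 : (d n).1 ≤ (d 0).1 := hanti (Nat.zero_le n)
    rw [hd0] at h2
    exact lt_of_lt_of_le h1 h2
  · intro n u
    exact (hZ n (d n).1 (d n).2 u).2.2.le

end

open Classical in
theorem slm : SlmStmt := by
  intro M _ _ _ hM K c
  -- the points
  have hA : ∀ n : ℕ, (Metric.ball (c n.unpair.1 n.unpair.2)
      ((1 / 2 : ℝ) ^ (n.unpair.1 + 6))).Infinite := by
    intro n
    exact nhds_inf hM _ _ Metric.isOpen_ball (Metric.mem_ball_self (by positivity))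
  obtain ⟨f, hf1, hf2⟩ := inj_choice hA
  obtain ⟨p, hp⟩ : ∃ p : ℕ → ℕ → M, ∀ m k, p m k = f (Nat.pair m k) :=
    ⟨fun m k => f (Nat.pair m k), fun _ _ => rfl⟩
  have hpc : ∀ m k, dist (p m k) (c m k) < (1 / 2 : ℝ) ^ (m + 6) := by
    intro m k
    have h := hf1 (Nat.pair m k)
    rw [Nat.unpair_pair] at h
    rw [hp]
    exact h
  have hpi : ∀ m k m' k', p m k = p m' k' → m = m' ∧ k = k' := by
    intro m k m' k' h
    rw [hp, hp] at h
    exact Nat.pair_eq_pair.1 (hf2 h)
  -- the radii
  have hrad : ∀ m k, ∃ r : ℝ, 0 < r ∧ r ≤ (1 / 2 : ℝ) ^ (m + 6) ∧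
      ∀ m' k', m' ≤ m + 7 → k' < K m' → ¬ (m = m' ∧ k = k') →
        3 * r ≤ dist (p m k) (p m' k') := by
    intro m k
    obtain ⟨r, hr, h⟩ := radius ((Finset.range (m + 8)).biUnion fun m' =>
      (Finset.range (K m')).image (p m')) (p m k)
    refine ⟨min r ((1 / 2 : ℝ) ^ (m + 6)), lt_min hr (by positivity), min_le_right _ _, ?_⟩
    intro m' k' hm hk hne
    have h1 : p m' k' ∈ (Finset.range (m + 8)).biUnion fun m' =>
        (Finset.range (K m')).image (p m') := by
      rw [Finset.mem_biUnion]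
      exact ⟨m', Finset.mem_range.2 (by omega), Finset.mem_image.2
        ⟨k', Finset.mem_range.2 hk, rfl⟩⟩
    have h2 : p m' k' ≠ p m k := by
      intro h3
      obtain ⟨h4, h5⟩ := hpi _ _ _ _ h3
      exact hne ⟨h4.symm, h5.symm⟩
    have h3 := h _ h1 h2
    have h4 := min_le_left r ((1 / 2 : ℝ) ^ (m + 6))
    linarith
  choose r hr0 hr1 hr2 using hrad
  have hcop := fun m k => copies hM (p m k) (r m k) (hr0 m k)
  choose η hη1 hη2 hη3 hη4 hη5 using hcop
  -- the cutoffs
  obtain ⟨w, hw⟩ : ∃ w : ℕ → ℕ → C(M, ℝ), ∀ m k t, w m k t =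
      if k < K m then max 0 (min 1 (2 - 2 * dist t (p m k) / r m k)) else 0 := by
    refine ⟨fun m k => ⟨fun t =>
      if k < K m then max 0 (min 1 (2 - 2 * dist t (p m k) / r m k)) else 0, ?_⟩,
      fun _ _ _ => rfl⟩
    by_cases h : k < K m
    · simp only [if_pos h]
      fun_prop
    · simp only [if_neg h]
      fun_prop
  have hwsupp : ∀ m k t, w m k t ≠ 0 → k < K m ∧ dist t (p m k) < r m k := by
    intro m k t h
    rw [hw] at h
    by_cases hk : k < K m
    · refine ⟨hk, ?_⟩
      rw [if_pos hk] at h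
      by_contra hd
      apply h
      apply max_eq_left
      apply (min_le_right _ _).trans
      have h1 : r m k ≤ dist t (p m k) := not_lt.1 hd
      have h2 : 1 ≤ dist t (p m k) / r m k := (one_le_div (hr0 m k)).2 h1
      have h3 : 2 * dist t (p m k) / r m k = 2 * (dist t (p m k) / r m k) := by ring
      rw [h3]
      linarith
    · rw [if_neg hk] at h
      exact absurd rfl h
  have hwone : ∀ m k t, k < K m → dist t (p m k) ≤ r m k / 2 → w m k t = 1 := by
    intro m k t hk hd
    rw [hw, if_pos hk]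
    have h1 : dist t (p m k) / r m k ≤ 1 / 2 := by
      rw [div_le_iff₀ (hr0 m k)]
      linarith
    have h3 : 2 * dist t (p m k) / r m k = 2 * (dist t (p m k) / r m k) := by ring
    rw [h3, min_eq_left (by linarith), max_eq_right zero_le_one]
  refine ⟨p, η, w, ?_⟩
  constructor
  · exact fun m k n => hη1 m k n
  · exact fun m k n n' u u' h => hη2 m k n n' u u' h
  · exact fun m k n u => hη3 m k n u
  · intro m k n u
    refine (hη5 m k n u).trans ?_
    have hn : 0 < (n : ℝ) + 1 := by positivity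
    exact div_le_div_of_nonneg_right (hr1 m k) hn.le
  · intro m k t
    rw [hw]
    split_ifs
    · exact ⟨le_max_left _ _, max_le zero_le_one (min_le_left _ _)⟩
    · exact ⟨le_rfl, zero_le_one⟩
  · intro m k hk
    apply hwone m k _ hk
    rw [dist_self]
    have := hr0 m k
    linarith
  · intro m k n u hk
    exact hwone m k _ hk (hη4 m k n u).le
  · intro m k t h
    obtain ⟨h1, h2⟩ := hwsupp m k t h
    refine ⟨h1, ?_⟩
    have h3 := hr1 m k
    have h4 := hpc m k
    have h5 : (1 / 2 : ℝ) ^ (m + 5) = 2 * (1 / 2 : ℝ) ^ (m + 6) := by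
      rw [pow_succ (1 / 2 : ℝ) (m + 5)]
      ring
    have h6 := dist_triangle t (p m k) (c m k)
    rw [h5]
    linarith
  · intro m k m' k' t hmm hmm' h h'
    obtain ⟨h1, h2⟩ := hwsupp m k t h
    obtain ⟨h1', h2'⟩ := hwsupp m' k' t h'
    by_contra hne
    have h3 := hr2 m k m' k' hmm' h1' hne
    have h4 := hr2 m' k' m k hmm h1 (fun h => hne ⟨h.1.symm, h.2.symm⟩)
    have h5 := dist_triangle_left (p m k) (p m' k') t
    rw [dist_comm (p m' k') (p m k)] at h4
    have h6 := hr0 m k
    have h7 := hr0 m' k'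
    linarith

end Pool.Agent.SSF.H26
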